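import Pool.Agent.Q170.Susp.Final

/-!
# Realizable Laplacian spectra under iterated suspension

For every finite graph `G₀` (in particular every non-complete one), the proportion `P(G_n)` of the
simplex `R` filled by the tuples realizable by the `n`-th iterated suspension `G_n` tends to `1`.
This answers Q1 of MP_0d7d6c_co in the affirmative.

The definitions (in `Pool.Agent.Q170.Susp.Defs`):
* `laplacian G w = D_w - W_w`, for a weight function `w` on unordered pairs, of which only the
  values on edges of `G` are used;
* `Realizable G lam`: for some `w` that is `≥ 0` on every edge, the multiset of roots of the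
  characteristic polynomial of `laplacian G w` is `{0, lam_1, ..., lam_{N-1}}`;
* `simplexR m`: the simplex of nonnegative `m`-tuples with sum `1` in Euclidean space;
* `realizableRatio G`: `(N-2)`-dimensional Hausdorff measure of the realizable tuples in
  `simplexR (N-1)` divided by that of `simplexR (N-1)`;
* `suspension G`: add one new vertex adjacent to all the old ones; `iterSuspension G₀ n = G_n`.
-/

open Filter Topology

theorem Pool.Agent.Results.MP_0d7d6c_co.SuspensionLimit.result {k : ℕ}
    (G₀ : SimpleGraph (Fin k)) :
    Tendsto (fun n : ℕ => Pool.Agent.Q170.Susp.realizableRatio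
      (Pool.Agent.Q170.Susp.iterSuspension G₀ n)) atTop (𝓝 1) :=
  Pool.Agent.Q170.Susp.tendsto_ratio G₀
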